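import Mathlib
import Pool.Agent.R488.Nin.Main

/-!
# `∑_{k<p} (k+2) T_k / 24^k = x` modulo `p^2`, `T_k = (3k)!/(k!)^3`, `4p = x^2 + 27y^2`

Proof: `T_k/24^k = (1/3)_k (2/3)_k / (k!)^2 (9/8)^k`.  The truncated sums of
`(1/3-u)_k (2/3-u)_k / ((1-3u)_k k!) (9/8)^k` with the weights `1` and `k+1+3u` are affine modulo
`p^2` for `u` in `p Z_p`; at `u = p/3` and `u = 2p/3` they terminate and have closed forms.  Their
values at `u = 0` are `C` and `p/C` with `C = C(2(p-1)/3, (p-1)/3)`, and `C = x - p/x` by the cubic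
Jacobi sum modulo `p^2`.
-/

set_option autoImplicit false

namespace Pool.Agent.Results.MP_96ca4c_nt.WeightedTrinomial24

open Finset

/-- the trinomial coefficient `(3k)! / (k!)^3` -/
def T (k : ℕ) : ℚ := ((3 * k).factorial : ℚ) / (k.factorial : ℚ) ^ 3

/-- `x ≡ y (mod p^2)` for rational numbers `x`, `y` with denominators prime to `p`:
`(x - y) / p^2` has denominator prime to `p`. -/
def CongrSq (p : ℕ) (x y : ℚ) : Prop :=
  ¬ p ∣ x.den ∧ ¬ p ∣ y.den ∧ ¬ p ∣ ((x - y) / (p : ℚ) ^ 2).den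

open Pool.Agent.R439.PL Pool.Agent.R488.Cub

theorem congr_of_EQ {p : ℕ} [Fact p.Prime] {x y : ℚ} (h : EQ p 2 x y) : CongrSq p x y := by
  refine ⟨?_, ?_, den_of_I h.2.2⟩
  · have := den_of_I (p := p) (k := 0) (I_zero_iff.2 h.1)
    rwa [pow_zero, div_one] at this
  · have := den_of_I (p := p) (k := 0) (I_zero_iff.2 h.2.1)
    rwa [pow_zero, div_one] at this

theorem result (p : ℕ) (hp : p.Prime) (h3 : p % 3 = 1) :
    (∃ x y : ℤ, 4 * (p : ℤ) = x ^ 2 + 27 * y ^ 2 ∧ x % 3 = 2) ∧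
    (∀ x y : ℤ, 4 * (p : ℤ) = x ^ 2 + 27 * y ^ 2 → x % 3 = 2 →
      CongrSq p (∑ k ∈ range p, ((k : ℚ) + 2) / 24 ^ k * T k) x) ∧
    CongrSq p (∑ k ∈ range p, T k / 24 ^ k) ((2 * ((p - 1) / 3)).choose ((p - 1) / 3) : ℚ) := by
  haveI : Fact p.Prime := ⟨hp⟩
  obtain ⟨j, hj⟩ : ∃ j, p = 6 * j + 1 := by
    have h2 : p % 2 = 1 := by
      rcases hp.eq_two_or_odd with h | h
      · subst h; omega
      · exact h
    exact ⟨p / 6, by omega⟩
  have hex : ∃ x y : ℤ, 4 * (p : ℤ) = x ^ 2 + 27 * y ^ 2 ∧ x % 3 = 2 := by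
    obtain ⟨L, M, h1, h2, -⟩ := jac p j hj
    exact ⟨-L, M, by rw [h1]; ring, by omega⟩
  refine ⟨hex, ?_, ?_⟩
  · intro x y h1 h2
    have h := congr_of_EQ (Pool.Agent.R488.Nin.main_x (p := p) hj h1 h2).1
    have e : ∑ k ∈ range p, ((k : ℚ) + 2) / 24 ^ k * T k =
        ∑ k ∈ range p, ((k : ℚ) + 2) * (((3 * k).factorial : ℚ) / (k.factorial : ℚ) ^ 3 / 24 ^ k) := by
      refine sum_congr rfl fun k _ => ?_
      rw [T]; ring
    rwa [e]
  · obtain ⟨x, y, h1, h2⟩ := hex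
    have h := congr_of_EQ (Pool.Agent.R488.Nin.main_x (p := p) hj h1 h2).2
    have e1 : (p - 1) / 3 = 2 * j := by omega
    have e2 : 2 * (2 * j) = 4 * j := by ring
    rw [e1, e2]
    exact h

end Pool.Agent.Results.MP_96ca4c_nt.WeightedTrinomial24
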